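import Mathlib

namespace Pool.Agent.Results.MP_db5e86_an.Newton

open Polynomial Filter Topology Metric Bornology

/-- The function `R = a (1 + P / (Q P + P'))`. -/
noncomputable def R (a : ℂ) (P Q : ℂ[X]) (z : ℂ) : ℂ :=
  a * (1 + P.eval z / (Q * P + derivative P).eval z)

/-- A rational function `f` takes the finite value `a` at `z`: `f(ζ) → a` as `ζ → z`, `ζ ≠ z`. -/
def Takes (f : ℂ → ℂ) (a z : ℂ) : Prop := Tendsto f (𝓝[≠] z) (𝓝 a)

section Abstract

variable {N N' : ℂ → ℂ} {U s : Set ℂ}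

lemma lift (hU : IsOpen U) (hN : ∀ z ∈ U, HasStrictDerivAt N (N' z) z)
    (hK : ∀ K, IsCompact K → IsCompact (U ∩ N ⁻¹' K)) (hs : ∀ z ∈ U, N z ∈ s → N' z ≠ 0)
    {c z0 : ℂ} {r : ℝ} (hr : 0 < r) {φ : ℂ → ℂ} (hφ : DifferentiableOn ℂ φ (ball c r))
    (hm : Set.MapsTo φ (ball c r) s) (h0 : z0 ∈ U) (h1 : N z0 = φ c) :
    ∃ ψ : ℂ → ℂ, DifferentiableOn ℂ ψ (ball c r) ∧ (∀ z ∈ ball c r, ψ z ∈ U ∧ N (ψ z) = φ z) ∧
      ψ c = z0 ∧ deriv ψ c * N' z0 = deriv φ c := by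
  classical
  let f : U → ℂ := N ∘ Subtype.val
  have fc : Continuous f := continuousOn_iff_continuous_domRestrict.1
    fun z hz => (hN z hz).hasDerivAt.continuousAt.continuousWithinAt
  have fp : IsProperMap f := isProperMap_iff_isCompact_preimage.2 ⟨fc, fun K hK' => by
    rw [Subtype.isCompact_iff]
    convert hK K hK'
    ext z
    simp [f, and_comm]⟩
  have fl : IsLocalHomeomorphOn f (f ⁻¹' s) := by
    refine IsLocalHomeomorphOn.comp (t := U ∩ N ⁻¹' s) (fun z hz => ⟨_,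
      ((hN z hz.1).hasStrictFDerivAt_equiv (hs z hz.1 hz.2)).mem_toOpenPartialHomeomorph_source,
      by simp⟩) (hU.isOpenEmbedding_subtypeVal.isLocalHomeomorph.isLocalHomeomorphOn.mono
      (Set.subset_univ _)) fun z hz => ⟨z.2, hz⟩
  have cov : IsCoveringMapOn f s := fp.isClosedMap.isCoveringMapOn_of_isLocalHomeomorphOn
    (fun x hx => (fp.isCompact_preimage isCompact_singleton).finite
      (.of_openPartialHomeomorph f subset_rfl fun e he => by
        obtain ⟨φ, hφ, h⟩ := fl e (by rw [Set.mem_preimage, Set.mem_singleton_iff.1 he]; exact hx)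
        exact ⟨φ, hφ, h.symm⟩)) fl
  have := (convex_ball c r).contractibleSpace (nonempty_ball.2 hr)
  have := (isOpen_ball (x := c) (ε := r)).locallyPathConnectedSpace
  obtain ⟨F, ⟨F0, hF⟩, -⟩ := cov.existsUnique_continuousMap_lifts
    (⟨(ball c r).domRestrict φ, continuousOn_iff_continuous_domRestrict.1 hφ.continuousOn⟩ :
      C(ball c r, ℂ)) (a₀ := ⟨c, mem_ball_self hr⟩) (e₀ := ⟨z0, h0⟩) h1 fun a => hm a.2
  obtain ⟨ψ, hψ⟩ : ∃ ψ : ℂ → ℂ, ∀ z : ball c r, ψ z = F z :=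
    ⟨fun z => if hz : z ∈ ball c r then F ⟨z, hz⟩ else 0, by simp⟩
  have ψc : ContinuousOn ψ (ball c r) := by
    rw [continuousOn_iff_continuous_domRestrict]
    convert continuous_subtype_val.comp (map_continuous F)
    ext z
    exact hψ z
  have h2 : ∀ z ∈ ball c r, ψ z ∈ U ∧ N (ψ z) = φ z := fun z hz => by
    rw [hψ ⟨z, hz⟩]
    exact ⟨(F _).2, congrFun hF ⟨z, hz⟩⟩
  have h3 : ∀ z ∈ ball c r, HasDerivAt ψ (deriv φ z / N' (ψ z)) z := fun z hz => by
    have hb := isOpen_ball.mem_nhds hz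
    refine HasDerivAt.of_comp_left (ψc.continuousAt hb) (hN _ (h2 z hz).1).hasDerivAt
      (hφ.differentiableAt hb).hasDerivAt (hs _ (h2 z hz).1 (by rw [(h2 z hz).2]; exact hm hz)) ?_
    filter_upwards [hb] with y hy using (h2 y hy).2
  have h4 : ψ c = z0 := by rw [hψ ⟨c, mem_ball_self hr⟩, F0]
  refine ⟨ψ, fun z hz => (h3 z hz).differentiableAt.differentiableWithinAt, h2, h4, ?_⟩
  rw [(h3 c (mem_ball_self hr)).deriv, h4, div_mul_cancel₀ _ (hs _ h0 (by
    rw [h1]; exact hm (mem_ball_self hr)))]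

lemma branch (hU : IsOpen U) (hN : ∀ z ∈ U, HasStrictDerivAt N (N' z) z)
    (hK : ∀ K, IsCompact K → IsCompact (U ∩ N ⁻¹' K)) (hs : ∀ z ∈ U, N z ∈ s → N' z ≠ 0)
    (hb : ∀ z ∈ U, N z ∈ s → z ∈ s) {r : ℝ} (hr : 0 < r) (n : ℕ) (z0 : ℂ)
    (ho : ∀ j, N^[j] z0 ∈ U) (hc : ball (N^[n] z0) r ⊆ s) :
    ∃ ψ : ℂ → ℂ, DifferentiableOn ℂ ψ (ball (N^[n] z0) r) ∧ Set.MapsTo ψ (ball (N^[n] z0) r) s ∧
      ψ (N^[n] z0) = z0 ∧ deriv ψ (N^[n] z0) * ∏ j ∈ Finset.range n, N' (N^[j] z0) = 1 := by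
  induction n generalizing z0 with
  | zero => exact ⟨id, differentiableOn_id, hc, rfl, by simp⟩
  | succ n ih =>
    obtain ⟨φ, h1, h2, h3, h4⟩ := ih (N z0) (fun j => ho (j + 1)) hc
    obtain ⟨ψ, g1, g2, g3, g4⟩ := lift hU hN hK hs hr h1 h2 (ho 0) h3.symm
    refine ⟨ψ, g1, fun z hz => hb _ (g2 z hz).1 (by rw [(g2 z hz).2]; exact h2 hz), g3, ?_⟩
    rw [Finset.prod_range_succ', ← h4, ← g4]
    simp only [Function.iterate_succ_apply, Function.iterate_zero_apply]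
    ring

lemma cauchy {ψ : ℂ → ℂ} {c z1 : ℂ} {r δ : ℝ} (hr : 0 < r) (hδ : 0 < δ)
    (h1 : DifferentiableOn ℂ ψ (ball c r)) (h2 : ∀ z ∈ ball c r, δ ≤ ‖ψ z - z1‖) :
    ‖deriv ψ c‖ * r ≤ 2 / δ * ‖ψ c - z1‖ ^ 2 := by
  have hne : ∀ z ∈ ball c r, ψ z - z1 ≠ 0 := fun z hz => norm_pos_iff.1 (hδ.trans_le (h2 z hz))
  have hb : ∀ z ∈ ball c r, ‖(ψ z - z1)⁻¹‖ ≤ 1 / δ := fun z hz => by
    rw [norm_inv, one_div]
    exact inv_anti₀ hδ (h2 z hz)
  have h := Complex.norm_deriv_le_div_of_mapsTo_ball (f := fun z => (ψ z - z1)⁻¹) (R₂ := 2 / δ)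
    ((h1.sub_const z1).inv hne) (fun z hz => by
      rw [mem_closedBall, dist_eq_norm]
      refine (norm_sub_le _ _).trans ((add_le_add (hb z hz) (hb c (mem_ball_self hr))).trans ?_)
      exact le_of_eq (by ring)) hr
  have hd := ((h1.differentiableAt (ball_mem_nhds c hr)).hasDerivAt.sub_const z1).fun_inv
    (hne c (mem_ball_self hr))
  have hp : 0 < ‖ψ c - z1‖ ^ 2 := pow_pos (norm_pos_iff.2 (hne c (mem_ball_self hr))) 2
  rw [hd.deriv, norm_div, norm_neg, norm_pow, div_le_div_iff₀ hp hr] at h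
  exact h

/-- One step in the attracting petal. -/
lemma step {a α β : ℂ} {q : ℝ} (hq : 0 ≤ q) (ha : ‖a‖ ≤ 1) (hqa : q ^ 2 * ‖a‖ ≤ 1 / 8)
    (hre : a.re ≤ -(‖a‖ / 2)) (hα : ‖α - 1‖ ≤ 1 / 16) (hβ : ‖β - q‖ ≤ 1 / 16) :
    ‖1 + β * a‖ ≤ (1 - ‖a‖ / 8) * ‖1 - α * a‖ := by
  have a0 := norm_nonneg a
  have h1 : ‖1 + (q : ℂ) * a‖ ≤ 1 + ‖a‖ / 16 := by
    refine abs_le_of_sq_le_sq' ?_ (by positivity) |>.2
    have e := Complex.sq_norm a
    rw [Complex.normSq_apply] at e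
    rw [Complex.sq_norm, Complex.normSq_apply]
    simp only [Complex.add_re, Complex.one_re, Complex.mul_re, Complex.ofReal_re, Complex.ofReal_im,
      Complex.add_im, Complex.one_im, Complex.mul_im]
    have : q * a.re ≤ 0 := mul_nonpos_of_nonneg_of_nonpos hq (by linarith)
    have : q ^ 2 * ‖a‖ * ‖a‖ ≤ 1 / 8 * ‖a‖ := by gcongr
    have : q ^ 2 * ‖a‖ ^ 2 = q ^ 2 * (a.re * a.re + a.im * a.im) := by rw [e]
    nlinarith
  have h2 : ‖1 + β * a‖ ≤ 1 + ‖a‖ / 8 := by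
    rw [show 1 + β * a = 1 + q * a + (β - q) * a by ring]
    refine (norm_add_le _ _).trans ?_
    rw [norm_mul]
    nlinarith
  have h3 : 1 + 7 * ‖a‖ / 16 ≤ ‖1 - α * a‖ := by
    have e1 := Complex.re_le_norm (1 - a)
    have e2 := norm_sub_le (1 - α * a) ((1 - α) * a)
    rw [show 1 - α * a - (1 - α) * a = 1 - a by ring, norm_mul, norm_sub_rev 1 α] at e2
    simp only [Complex.sub_re, Complex.one_re] at e1
    nlinarith
  refine h2.trans (le_trans ?_ (mul_le_mul_of_nonneg_left h3 (by linarith)))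
  nlinarith

/-- Along an orbit in the petal the derivative is small compared with the position. -/
lemma petal {c : ℂ} (hc : c ≠ 0) {q : ℕ} {α β : ℂ → ℂ} (hα : Tendsto α (cobounded ℂ) (𝓝 1))
    (hβ : Tendsto β (cobounded ℂ) (𝓝 q))
    (hN : ∀ᶠ z in cobounded ℂ, N z = z * (1 - α z * (c * z ^ (q + 1))⁻¹) ∧
      N' z = 1 + β z * (c * z ^ (q + 1))⁻¹) (R1 : ℝ) :
    ∃ z0, (∀ n, R1 ≤ ‖N^[n] z0‖) ∧ ∀ K : ℝ, ∃ n,
      K * ‖∏ j ∈ Finset.range n, N' (N^[j] z0)‖ < ‖N^[n] z0‖ := by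
  have ha : Tendsto (fun z : ℂ => (c * z ^ (q + 1))⁻¹) (cobounded ℂ) (𝓝 0) := by
    have := (tendsto_inv₀_cobounded (α := ℂ).pow (q + 1)).const_mul c⁻¹
    simpa [mul_comm] using this
  have hγ : Tendsto (fun z : ℂ => α z * ∑ i ∈ Finset.range (q + 1),
      (1 - α z * (c * z ^ (q + 1))⁻¹) ^ i) (cobounded ℂ) (𝓝 (q + 1)) := by
    have := hα.mul (tendsto_finsetSum (Finset.range (q + 1)) fun i _ =>
      ((hα.mul ha).const_sub 1).pow i)
    simpa using this
  have near : ∀ {f : ℂ → ℂ} {b : ℂ} {ε : ℝ}, Tendsto f (cobounded ℂ) (𝓝 b) → 0 < ε →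
      ∀ᶠ z in cobounded ℂ, ‖f z - b‖ ≤ ε := fun h hε => by
    filter_upwards [h (closedBall_mem_nhds _ hε)] with z hz
    rwa [Set.mem_preimage, mem_closedBall, dist_eq_norm] at hz
  obtain ⟨R0, -, hR⟩ := hasBasis_cobounded_norm.eventually_iff.1 (hN.and ((near hα
    (show (0 : ℝ) < 1 / 16 by norm_num)).and ((near hβ (show (0 : ℝ) < 1 / 16 by norm_num)).and
    ((near hγ (show (0 : ℝ) < 1 / 2 by norm_num)).and
    (near ha (show (0 : ℝ) < 1 / (8 * (q ^ 2 + 1)) by positivity))))))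
  obtain ⟨R2, r1, r2, r3⟩ : ∃ R2 : ℝ, 1 ≤ R2 ∧ R0 ≤ R2 ∧ R1 ≤ R2 :=
    ⟨max 1 (max R0 R1), by simp, by simp, by simp⟩
  obtain ⟨W, hW⟩ : ∃ W : ℝ, W = ‖c‖ * R2 ^ (q + 1) := ⟨_, rfl⟩
  have c0 : 0 < ‖c‖ := norm_pos_iff.2 hc
  have W0 : 0 < W := by rw [hW]; positivity
  have big : ∀ z : ℂ, (c * z ^ (q + 1)).re ≤ -W → R2 ≤ ‖z‖ := fun z hz => by
    have h1 := Complex.abs_re_le_norm (c * z ^ (q + 1))
    have h2 : W ≤ ‖c * z ^ (q + 1)‖ := by linarith [neg_abs_le (c * z ^ (q + 1)).re]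
    rw [hW, norm_mul, norm_pow] at h2
    exact le_of_pow_le_pow_left₀ (Nat.succ_ne_zero q) (norm_nonneg _) (le_of_mul_le_mul_left h2 c0)
  obtain ⟨z0, hz0⟩ := IsAlgClosed.exists_pow_nat_eq (-W / c : ℂ) (Nat.succ_pos q)
  have inv : ∀ n : ℕ, (c * N^[n] z0 ^ (q + 1)).re ≤ -W - n / 2 ∧
      |(c * N^[n] z0 ^ (q + 1)).im| ≤ n / 2 ∧ ‖c * N^[n] z0 ^ (q + 1)‖ ≤ W + n * (q + 2) := by
    intro n
    induction n with
    | zero =>
      have : c * z0 ^ (q + 1) = -W := by rw [hz0]; field_simp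
      simp [this, abs_of_pos W0]
    | succ n ih =>
      obtain ⟨i1, i2, i3⟩ := ih
      rw [Function.iterate_succ_apply']
      generalize N^[n] z0 = z at *
      have n0 : (0 : ℝ) ≤ n := by positivity
      have hz := big z (by linarith)
      obtain ⟨⟨e, -⟩, -, -, hg, -⟩ := hR (r2.trans hz)
      have z0' : z ≠ 0 := norm_pos_iff.1 (by linarith)
      have e2 : c * N z ^ (q + 1) = c * z ^ (q + 1) - α z * ∑ i ∈ Finset.range (q + 1),
          (1 - α z * (c * z ^ (q + 1))⁻¹) ^ i := by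
        have := mul_neg_geom_sum (1 - α z * (c * z ^ (q + 1))⁻¹) (q + 1)
        rw [e, mul_pow, eq_sub_of_add_eq' (eq_sub_iff_add_eq.1 this)]
        field_simp
        ring
      rw [e2]
      generalize α z * ∑ i ∈ Finset.range (q + 1), (1 - α z * (c * z ^ (q + 1))⁻¹) ^ i = γ at *
      have g1 := abs_le.1 ((Complex.abs_re_le_norm _).trans hg)
      have g2 := abs_le.1 ((Complex.abs_im_le_norm _).trans hg)
      have g3 := norm_sub_le (c * z ^ (q + 1)) γ
      have g4 := norm_add_le (γ - (q + 1)) (q + 1)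
      have g5 : ‖(q + 1 : ℂ)‖ = q + 1 := by exact_mod_cast Complex.norm_natCast (q + 1)
      have q0 : (0 : ℝ) ≤ q := by positivity
      rw [sub_add_cancel] at g4
      rw [abs_le] at i2 ⊢
      simp only [Complex.sub_re, Complex.sub_im, Complex.add_re, Complex.add_im, Complex.natCast_re,
        Complex.natCast_im, Complex.one_re, Complex.one_im] at g1 g2 ⊢
      push_cast
      refine ⟨by linarith, ⟨by linarith, by linarith⟩, by linarith⟩
  have hz : ∀ n, R2 ≤ ‖N^[n] z0‖ := fun n => big _ (by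
    have : (0 : ℝ) ≤ n := by positivity
    linarith [(inv n).1])
  obtain ⟨κ, hκ⟩ : ∃ κ : ℝ, κ = 1 / (8 * (W + q + 2)) := ⟨_, rfl⟩
  have κ0 : 0 < κ := by rw [hκ]; positivity
  have key : ∀ n : ℕ, ‖∏ j ∈ Finset.range n, N' (N^[j] z0)‖ * ‖z0‖ *
      (1 + κ * ∑ i ∈ Finset.range n, 1 / (i + 1 : ℝ)) ≤ ‖N^[n] z0‖ := by
    intro n
    induction n with
    | zero => simp
    | succ n ih =>
      obtain ⟨i1, i2, i3⟩ := inv n
      have h1 := hz n
      rw [Function.iterate_succ_apply', Finset.prod_range_succ, Finset.sum_range_succ, norm_mul]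
      generalize N^[n] z0 = z at *
      obtain ⟨⟨e1, e2⟩, b1, b2, -, b3⟩ := hR (r2.trans h1)
      have n0 : (0 : ℝ) ≤ n := by positivity
      have q0 : (0 : ℝ) ≤ q := by positivity
      generalize c * z ^ (q + 1) = w at *
      have w1 : ‖w‖ ≤ -(2 * w.re) := by
        have := Complex.norm_le_abs_re_add_abs_im w
        rw [abs_of_neg (by linarith : w.re < 0)] at this
        linarith
      have w0 : 0 < ‖w‖ := by linarith [Complex.abs_re_le_norm w, neg_abs_le w.re]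
      rw [sub_zero, le_div_iff₀ (by positivity)] at b3
      have a0 := norm_nonneg w⁻¹
      have st := step (a := w⁻¹) q0 (by nlinarith) (by nlinarith) (by
        rw [Complex.inv_re, Complex.normSq_eq_norm_sq, norm_inv, div_le_iff₀ (by positivity)]
        field_simp
        linarith) b1 (by exact_mod_cast b2)
      have x1 : κ * (1 / (n + 1 : ℝ)) ≤ ‖w⁻¹‖ / 8 := by
        rw [hκ, norm_inv, inv_eq_one_div, div_div, div_mul_div_comm, one_mul]
        exact one_div_le_one_div_of_le (by positivity) (by nlinarith)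
      have x0 : 0 ≤ κ * (1 / (n + 1 : ℝ)) := by positivity
      have S0 : 0 ≤ κ * ∑ i ∈ Finset.range n, 1 / (i + 1 : ℝ) := by positivity
      rw [e1, e2, norm_mul, mul_add κ, ← add_assoc]
      generalize κ * ∑ i ∈ Finset.range n, 1 / (i + 1 : ℝ) = S at *
      generalize κ * (1 / (n + 1 : ℝ)) = x at *
      have m0 := norm_nonneg (1 - α z * w⁻¹)
      have s1 : ‖1 + β z * w⁻¹‖ * (1 + S + x) ≤ ‖1 - α z * w⁻¹‖ * (1 + S) := by
        have t1 : ‖1 + β z * w⁻¹‖ ≤ (1 - x) * ‖1 - α z * w⁻¹‖ :=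
          st.trans (mul_le_mul_of_nonneg_right (by linarith) m0)
        have t2 : (1 - x) * (1 + S + x) ≤ 1 + S := by nlinarith
        calc _ ≤ (1 - x) * ‖1 - α z * w⁻¹‖ * (1 + S + x) := by gcongr
          _ = ‖1 - α z * w⁻¹‖ * ((1 - x) * (1 + S + x)) := by ring
          _ ≤ _ := by gcongr
      calc _ = ‖∏ j ∈ Finset.range n, N' (N^[j] z0)‖ * ‖z0‖ *
            (‖1 + β z * w⁻¹‖ * (1 + S + x)) := by ring
        _ ≤ ‖∏ j ∈ Finset.range n, N' (N^[j] z0)‖ * ‖z0‖ * (‖1 - α z * w⁻¹‖ * (1 + S)) := by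
            gcongr
        _ = ‖∏ j ∈ Finset.range n, N' (N^[j] z0)‖ * ‖z0‖ * (1 + S) * ‖1 - α z * w⁻¹‖ := by ring
        _ ≤ _ := by gcongr
  refine ⟨z0, fun n => r3.trans (hz n), fun K => ?_⟩
  obtain ⟨n, hn⟩ := ((Real.tendsto_sum_range_one_div_nat_succ_atTop.const_mul_atTop
    κ0).eventually_gt_atTop K).exists
  refine ⟨n, ?_⟩
  have h1 := key n
  have h2 : 1 ≤ ‖z0‖ := r1.trans (hz 0)
  have h3 := hz n
  have S0 : 0 ≤ κ * ∑ i ∈ Finset.range n, 1 / (i + 1 : ℝ) := by positivity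
  generalize κ * ∑ i ∈ Finset.range n, 1 / (i + 1 : ℝ) = S at *
  rcases (norm_nonneg (∏ j ∈ Finset.range n, N' (N^[j] z0))).eq_or_lt with h | h
  · rw [← h]; linarith
  · generalize ‖∏ j ∈ Finset.range n, N' (N^[j] z0)‖ = p at *
    have : p * 1 * (1 + S) ≤ p * ‖z0‖ * (1 + S) := by gcongr
    nlinarith

end Abstract

lemma asym (p : ℂ[X]) {n : ℕ} (h : p.natDegree ≤ n) :
    Tendsto (fun z : ℂ => p.eval z / z ^ n) (cobounded ℂ) (𝓝 (p.coeff n)) := by
  have h1 : Tendsto (fun z : ℂ => ∑ i ∈ Finset.range (n + 1), p.coeff i * z⁻¹ ^ (n - i))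
      (cobounded ℂ) (𝓝 (∑ i ∈ Finset.range (n + 1), p.coeff i * 0 ^ (n - i))) :=
    tendsto_finsetSum _ fun i _ => (tendsto_inv₀_cobounded.pow _).const_mul _
  rw [Finset.sum_range_succ, Finset.sum_eq_zero fun i hi => by
    rw [zero_pow (by have := Finset.mem_range.1 hi; omega), mul_zero]] at h1
  simp only [Nat.sub_self, pow_zero, mul_one, zero_add] at h1
  refine h1.congr' ?_
  filter_upwards [eventually_ne_cobounded (0 : ℂ)] with z hz
  rw [eval_eq_sum_range' (Nat.lt_succ_of_le h), Finset.sum_div]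
  refine Finset.sum_congr rfl fun i hi => ?_
  obtain ⟨k, rfl⟩ := Nat.exists_eq_add_of_le (Nat.lt_succ_iff.1 (Finset.mem_range.1 hi))
  rw [Nat.add_sub_cancel_left, pow_add, inv_pow]
  field_simp

lemma coeff_Xd (p : ℂ[X]) (n : ℕ) : (X * derivative p).coeff n = n * p.coeff n := by
  cases n with
  | zero => simp
  | succ n => rw [coeff_X_mul, coeff_derivative]; push_cast; ring

lemma asym' (p : ℂ[X]) {n : ℕ} (h : p.natDegree ≤ n) :
    Tendsto (fun z : ℂ => z * (derivative p).eval z / z ^ n) (cobounded ℂ)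
      (𝓝 (n * p.coeff n)) := by
  have := asym (X * derivative p) (n := n) (natDegree_le_iff_coeff_eq_zero.2 fun k hk => by
    rw [coeff_Xd, coeff_eq_zero_of_natDegree_lt (h.trans_lt hk), mul_zero])
  simpa only [coeff_Xd, eval_mul, eval_X] using this

/-- The case without roots. -/
lemma noroot {Q : ℂ[X]} (hq : 0 < Q.natDegree) :
    ∃ z, Q.eval z ≠ 0 ∧ (Q ^ 2 + derivative Q).eval z = 0 := by
  by_contra hc
  have hQ : Q ≠ 0 := by rintro rfl; simp at hq
  have hd : derivative Q ≠ 0 := fun h => hq.ne' (derivative_eq_zero.1 h)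
  have h1 : (Q ^ 2 + derivative Q).natDegree = 2 * Q.natDegree := by
    rw [natDegree_add_eq_left_of_natDegree_lt, natDegree_pow]
    have := natDegree_derivative_lt hq.ne'
    rw [natDegree_pow]
    omega
  have hG : Q ^ 2 + derivative Q ≠ 0 := fun h => by rw [h] at h1; simp at h1; omega
  have := natDegree_le_of_dvd ((IsAlgClosed.splits _).dvd_of_roots_le_roots hG
    (Multiset.le_iff_count.2 fun r => ?_)) hQ
  · omega
  classical
  rw [count_roots, count_roots]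
  by_contra hlt
  have r1 : (Q ^ 2 + derivative Q).IsRoot r := (rootMultiplicity_pos hG).1 (by omega)
  have r2 : Q.IsRoot r := by
    by_contra h
    exact hc ⟨r, h, r1⟩
  have r3 := (rootMultiplicity_pos hQ).2 r2
  have d1 : (X - C r) ^ rootMultiplicity r Q ∣ Q ^ 2 + derivative Q :=
    (le_rootMultiplicity_iff hG).1 (by omega)
  have d2 : (X - C r) ^ rootMultiplicity r Q ∣ derivative Q :=
    (dvd_add_right ((pow_rootMultiplicity_dvd Q r).trans (dvd_pow_self Q two_ne_zero))).1 d1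
  have := (le_rootMultiplicity_iff hd).2 d2
  rw [derivative_rootMultiplicity_of_root r2] at this
  omega

lemma main {P Q D : ℂ[X]} (hD : D = Q * P + derivative P)
    (hP : ∀ z, P.eval z = 0 → (derivative P).eval z ≠ 0) (hQ : Q ≠ 0) {z1 : ℂ}
    (h1 : P.eval z1 = 0) : ∃ z, D.eval z ≠ 0 ∧ P.eval z ≠ 0 ∧
      (derivative P).eval z * D.eval z - P.eval z * (derivative D).eval z = D.eval z ^ 2 := by
  by_contra hc
  have P0 : P ≠ 0 := by rintro rfl; simpa using hP 0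
  have eD : ∀ z, P.eval z = 0 → D.eval z = (derivative P).eval z := fun z h => by simp [hD, h]
  let N : ℂ → ℂ := fun z => z - P.eval z / D.eval z
  let N' : ℂ → ℂ := fun z => 1 - ((derivative P).eval z * D.eval z -
    P.eval z * (derivative D).eval z) / D.eval z ^ 2
  let U : Set ℂ := {z | D.eval z ≠ 0}
  have hU : IsOpen U := isOpen_ne_fun D.continuous continuous_const
  have hN : ∀ z ∈ U, HasStrictDerivAt N (N' z) z := fun z hz =>
    (hasStrictDerivAt_id z).sub ((P.hasStrictDerivAt z).div (D.hasStrictDerivAt z) hz)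
  obtain ⟨p, hp⟩ : ∃ p, p = P.natDegree := ⟨_, rfl⟩
  obtain ⟨q, hq⟩ : ∃ q, q = Q.natDegree := ⟨_, rfl⟩
  obtain ⟨c, hc'⟩ : ∃ c, c = Q.leadingCoeff := ⟨_, rfl⟩
  obtain ⟨l, hl⟩ : ∃ l, l = P.coeff p := ⟨_, rfl⟩
  have c0 : c ≠ 0 := hc' ▸ leadingCoeff_ne_zero.2 hQ
  have l0 : l ≠ 0 := by rw [hl, hp]; exact leadingCoeff_ne_zero.2 P0
  have dD : D.natDegree ≤ q + p := by
    rw [hD, hp, hq]
    exact (natDegree_add_le _ _).trans (max_le natDegree_mul_le
      ((natDegree_derivative_le P).trans (by omega)))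
  have cD : D.coeff (q + p) = c * l := by
    rw [hD, coeff_add, coeff_derivative, coeff_eq_zero_of_natDegree_lt (p := P) (by omega), hc', hl,
      hp, hq, coeff_mul_degree_add_degree, zero_mul, add_zero]
    rfl
  have a1 := asym P hp.ge
  have a2 := asym D dD
  have a3 := asym' P hp.ge
  have a4 := asym' D dD
  rw [← hl] at a1 a3
  rw [cD] at a2 a4
  have cl := mul_ne_zero c0 l0
  have ev : ∀ᶠ z in cobounded ℂ, z ≠ 0 ∧ D.eval z ≠ 0 ∧ P.eval z ≠ 0 := by
    filter_upwards [eventually_ne_cobounded (0 : ℂ), a2.eventually_ne cl, a1.eventually_ne l0]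
      with z h0 h h'
    exact ⟨h0, fun e => h (by rw [e, zero_div]), fun e => h' (by rw [e, zero_div])⟩
  have hα := (a1.div a2 cl).const_mul c
  have hβ := (((a1.mul a4).sub (a3.mul a2)).div (a2.pow 2) (pow_ne_zero 2 cl)).const_mul c
  rw [show c * (l / (c * l)) = 1 by field_simp] at hα
  rw [show c * ((l * ((q + p : ℕ) * (c * l)) - p * l * (c * l)) / (c * l) ^ 2) = q by
    push_cast; field_simp; ring] at hβ
  have hNe := fun R1 => petal (N := N) (N' := N') c0 hα hβ (by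
    filter_upwards [ev] with z ⟨h0, h, _⟩
    simp only [N, N', Pi.div_apply]
    constructor <;> field_simp <;> ring) R1
  have big : ∀ᶠ z in cobounded ℂ, ‖z‖ ≤ 2 * ‖N z‖ := by
    have t1 : Tendsto (fun z : ℂ => 1 - (P.eval z / z ^ p / (D.eval z / z ^ (q + p))) *
        z⁻¹ ^ (q + 1)) (cobounded ℂ) (𝓝 1) := by
      simpa using ((a1.div a2 cl).mul (tendsto_inv₀_cobounded.pow (q + 1))).const_sub 1
    filter_upwards [ev, t1.norm.eventually_const_lt (u := 1 / 2) (by norm_num)] with z ⟨h0, h, _⟩ t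
    have : N z = z * (1 - (P.eval z / z ^ p / (D.eval z / z ^ (q + p))) * z⁻¹ ^ (q + 1)) := by
      simp only [N, inv_pow]
      field_simp
      ring
    rw [this, norm_mul]
    nlinarith [norm_nonneg z]
  obtain ⟨R0, -, hR⟩ := hasBasis_cobounded_norm.eventually_iff.1 (ev.and big)
  have hK : ∀ K, IsCompact K → IsCompact (U ∩ N ⁻¹' K) := fun K hK => by
    obtain ⟨M, hM⟩ := hK.isBounded.exists_norm_le
    have := (((isCompact_closedBall (0 : ℂ) (max R0 (2 * M))).prod hK).inter_right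
      (t := {x : ℂ × ℂ | x.1 * D.eval x.1 - P.eval x.1 = x.2 * D.eval x.1})
      (isClosed_eq (by fun_prop) (by fun_prop))).image continuous_fst
    convert this
    ext z
    constructor
    · rintro ⟨hz, hk⟩
      refine ⟨(z, N z), ⟨⟨?_, hk⟩, ?_⟩, rfl⟩
      · rw [mem_closedBall_zero_iff, le_max_iff]
        by_cases h : R0 ≤ ‖z‖
        · exact Or.inr (by linarith [(hR h).2, hM _ hk])
        · exact Or.inl (not_le.1 h).le
      · have : D.eval z ≠ 0 := hz
        simp only [N, Set.mem_ofPred_eq]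
        field_simp
    · rintro ⟨⟨z, w⟩, ⟨⟨-, hk⟩, h⟩, rfl⟩
      simp only [Set.mem_ofPred_eq] at h hk ⊢
      have : D.eval z ≠ 0 := fun e => by
        rw [e, mul_zero, mul_zero, zero_sub, neg_eq_zero] at h
        exact hP z h (by rw [← eD z h, e])
      refine ⟨this, ?_⟩
      rw [Set.mem_preimage, show N z = w by simp only [N]; field_simp; linear_combination h]
      exact hk
  have fix : ∀ z, P.eval z = 0 → N z = z := fun z h => by simp [N, h]
  obtain ⟨δ, δ0, hδ⟩ : ∃ δ > 0, ∀ z ∈ ball z1 δ, N z ∈ ball z1 δ := by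
    have d1 : D.eval z1 ≠ 0 := by rw [eD z1 h1]; exact hP z1 h1
    have d2 : N' z1 = 0 := by
      simp only [N', h1, ← eD z1 h1]
      field_simp
      ring
    have d3 := (hN z1 d1).hasDerivAt.isLittleO.bound one_pos
    obtain ⟨δ, δ0, h⟩ := Metric.eventually_nhds_iff_ball.1 d3
    refine ⟨δ, δ0, fun z hz => ?_⟩
    have := h z hz
    rw [d2, fix z1 h1, smul_zero, sub_zero, one_mul] at this
    rw [mem_ball, dist_eq_norm] at hz ⊢
    exact this.trans_lt hz
  let s : Set ℂ := {w | P.eval w ≠ 0 ∧ w ∉ ball z1 δ}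
  have hb : ∀ z ∈ U, N z ∈ s → z ∈ s := fun z _ h =>
    ⟨fun e => h.1 (by rw [fix z e, e]), fun e => h.2 (hδ z e)⟩
  have hs : ∀ z ∈ U, N z ∈ s → N' z ≠ 0 := fun z hz h e => by
    have : D.eval z ≠ 0 := hz
    refine hc ⟨z, hz, (hb z hz h).1, ?_⟩
    simp only [N'] at e
    rwa [sub_eq_zero, eq_div_iff (pow_ne_zero 2 this), one_mul, eq_comm] at e
  obtain ⟨z0, o1, o2⟩ := hNe (2 * (|R0| + ‖z1‖ + δ))
  obtain ⟨n, hn⟩ := o2 (4 / δ * ‖z0 - z1‖ ^ 2)
  have b0 := abs_nonneg R0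
  have b1 := le_abs_self R0
  have b2 := norm_nonneg z1
  have b3 := o1 n
  have r0 : 0 < ‖N^[n] z0‖ / 2 := by linarith
  obtain ⟨ψ, g1, g2, g3, g4⟩ := branch hU hN hK hs hb r0 n z0
    (fun j => (hR (show R0 ≤ _ by linarith [o1 j])).1.2.1) fun z hz => by
      rw [mem_ball, dist_eq_norm, norm_sub_rev] at hz
      have := norm_sub_norm_le (N^[n] z0) z
      refine ⟨(hR (show R0 ≤ _ by linarith)).1.2.2, fun e => ?_⟩
      rw [mem_ball, dist_eq_norm] at e
      linarith [norm_sub_norm_le z z1]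
  have g5 := cauchy (z1 := z1) r0 δ0 g1 fun z hz => by
    have := (g2 hz).2
    rwa [mem_ball, dist_eq_norm, not_lt] at this
  have g6 := congrArg norm g4
  rw [norm_mul, norm_one] at g6
  rw [g3] at g5
  have g7 := mul_le_mul_of_nonneg_right g5 (norm_nonneg (∏ j ∈ Finset.range n, N' (N^[j] z0)))
  rw [mul_right_comm, g6] at g7
  rw [show 4 / δ = 2 * (2 / δ) by ring] at hn
  linarith

theorem result (a : ℂ) (ha : a ≠ 0) (P Q : ℂ[X])
    (hP : ∀ z, P.eval z = 0 → (derivative P).eval z ≠ 0) (hQ : Q ≠ 0)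
    (hR : ¬∃ b, ∀ z, (Q * P + derivative P).eval z ≠ 0 → R a P Q z = b) :
    ¬∀ z, Takes (R a P Q) a z ↔ Takes (deriv (R a P Q)) a z := by
  intro H
  obtain ⟨D, hD⟩ : ∃ D, D = Q * P + derivative P := ⟨_, rfl⟩
  obtain ⟨z, h1, h2, h3⟩ : ∃ z, D.eval z ≠ 0 ∧ P.eval z ≠ 0 ∧
      (derivative P).eval z * D.eval z - P.eval z * (derivative D).eval z = D.eval z ^ 2 := by
    by_cases h : ∃ z1, P.eval z1 = 0
    · obtain ⟨z1, h⟩ := h
      exact main hD hP hQ h
    · have hd : P.degree = 0 := by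
        by_contra hc
        exact h (IsAlgClosed.exists_root P hc)
      obtain ⟨k, rfl⟩ : ∃ k, P = C k := ⟨_, eq_C_of_degree_eq_zero hd⟩
      have k0 : k ≠ 0 := fun e => h ⟨0, by simp [e]⟩
      obtain ⟨z, g1, g2⟩ := noroot (Q := Q) (Nat.pos_of_ne_zero fun e => hR ⟨R a (C k) Q 0,
        fun z _ => by rw [eq_C_of_natDegree_eq_zero e]; simp [R]⟩)
      refine ⟨z, by simp [hD, g1, k0], by simp [k0], ?_⟩
      simp only [eval_add, eval_pow] at g2
      simp [hD]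
      linear_combination (-k ^ 2) * g2
  have hd : ∀ y, D.eval y ≠ 0 → HasDerivAt (R a P Q) (a * (((derivative P).eval y * D.eval y -
      P.eval y * (derivative D).eval y) / D.eval y ^ 2)) y := fun y hy => by
    unfold R
    rw [← hD]
    exact (((P.hasDerivAt y).div (D.hasDerivAt y) hy).const_add 1).const_mul a
  have t1 : Takes (deriv (R a P Q)) a z := by
    have c1 : ContinuousAt (fun y => a * (((derivative P).eval y * D.eval y -
        P.eval y * (derivative D).eval y) / D.eval y ^ 2)) z :=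
      continuousAt_const.mul (ContinuousAt.div (by fun_prop) (by fun_prop) (pow_ne_zero 2 h1))
    have c2 := c1.tendsto
    rw [h3, div_self (pow_ne_zero 2 h1), mul_one] at c2
    refine (c2.congr' ?_).mono_left nhdsWithin_le_nhds
    filter_upwards [D.continuous.continuousAt.eventually_ne h1] with y hy using (hd y hy).deriv.symm
  have t2 := tendsto_nhds_unique ((hd z h1).continuousAt.tendsto.mono_left nhdsWithin_le_nhds)
    ((H z).2 t1)
  unfold R at t2
  rw [← hD] at t2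
  field_simp at t2
  exact h2 (by linear_combination t2)

end Pool.Agent.Results.MP_db5e86_an.Newton
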